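import Pool.Agent.Helper65.CS.Goals

/-!
# MP_34c247_lc, project CS of helper65, packet CHS: the chosen set is pseudorandom
-/

set_option autoImplicit false

namespace Pool.Agent.Helper27.CS

open Pool.Agent.Helper78.DT Pool.Agent.Helper51.ZP Pool.Agent.Helper65.CS
open scoped Classical

theorem nb_lt (b : ℕ) (r : ℕ → Bool) (j : ℕ) : nb b r j < 2 ^ b := by
  unfold nb
  refine lt_of_le_of_lt (Finset.sum_le_sum (g := fun i => 2 ^ i) fun i _ => ?_)
    (Nat.geomSum_lt le_rfl fun k hk => Finset.mem_range.1 hk)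
  split_ifs
  · exact le_rfl
  · exact Nat.zero_le _

theorem pk_lt (b : ℕ) (r : ℕ → Bool) (j l : ℕ) (hj : j < l / 2 ^ b) : pk b r j < l := by
  unfold pk
  have h1 := nb_lt b r j
  have h2 : (j + 1) * 2 ^ b ≤ l / 2 ^ b * 2 ^ b := Nat.mul_le_mul_right _ hj
  have h3 := Nat.div_mul_le_self l (2 ^ b)
  have h4 : (j + 1) * 2 ^ b = j * 2 ^ b + 2 ^ b := by ring
  omega

theorem chsStmt (hP : PslStmt) : ChsStmt := by
  intro n b al Ω _ _ ε Z hε hB hnd hlt A
  by_cases hA : ∀ v ∈ A, (v : ℕ) ∈ al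
  · obtain ⟨P, hPdef⟩ : ∃ P : Finset ℕ, P = A.image fun v : Fin n => al.idxOf (v : ℕ) := ⟨_, rfl⟩
    have hcard : P.card = A.card := by
      rw [hPdef]
      refine Finset.card_image_of_injOn ?_
      intro v hv w hw h
      have h' : al.idxOf (v : ℕ) = al.idxOf (w : ℕ) := h
      have h1 := List.getElem_idxOf (List.idxOf_lt_length_of_mem (hA v hv))
      have h2 := List.getElem_idxOf (List.idxOf_lt_length_of_mem (hA w hw))
      apply Fin.ext
      rw [← h1, ← h2]
      simp only [h']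
    rw [← hcard]
    refine (pr_mono fun ω hω => ?_).trans (hP b (al.length / 2 ^ b) Ω ε Z hε hB P)
    intro p hp
    rw [hPdef] at hp
    obtain ⟨v, hv, rfl⟩ := Finset.mem_image.1 hp
    obtain ⟨j, hj, hj2⟩ := (Finset.mem_filter.1 (hω hv)).2
    refine ⟨j, hj, ?_⟩
    have hl := pk_lt b (bt (Z ω)) j al.length hj
    rw [List.getD_eq_getElem _ _ hl] at hj2
    rw [← hj2, List.Nodup.idxOf_getElem hnd]
  · push Not at hA
    obtain ⟨v, hv, hv2⟩ := hA
    have h0 : pr (fun ω => A ⊆ chs n al b (bt (Z ω))) ≤ 0 := by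
      refine (pr_mono (E' := fun _ => False) fun ω hω => ?_).trans ?_
      · obtain ⟨j, hj, hj2⟩ := (Finset.mem_filter.1 (hω hv)).2
        have hl := pk_lt b (bt (Z ω)) j al.length hj
        rw [List.getD_eq_getElem _ _ hl] at hj2
        apply hv2
        rw [← hj2]
        exact List.getElem_mem hl
      · rw [pr_eq_av]
        simp only [if_false]
        rw [av_const]
    refine h0.trans (add_nonneg (by positivity) hε)

end Pool.Agent.Helper27.CS
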