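import Pool.Agent.Helper6.CS.Goals1

/-!
# Project CS, packet L4
-/

namespace Pool.Agent.Helper27.CS

open Pool.Agent.Helper6.CS

set_option synthInstance.maxSize 1000000000

theorem ip_Cl {M : Type} [World M] (b p : M) (D : Wd M → Prop) [IP M D] :
    IP M fun m : M => Cl b p D m := by
  unfold Cl
  infer_instance

theorem t_L4 (hCL0 : G_CL0) (hCLS : G_CLS) (hCS1 : G_CS1) (hBND : G_BND) : G_L4 := by
  intro M _ b D hD hPS
  obtain ⟨p, hp⟩ := hPS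
  have hPd : PSd b p D := hp
  by_contra hne
  have hne' : ∀ s, Over b s → D s → ¬ PS (b + 1) (Ext b D s) :=
    fun s h1 h2 h3 => hne ⟨s, h1, h2, h3⟩
  have hCl : ∀ m : M, Cl b p D m :=
    ind (ip_Cl b p D) (hCL0 M b p D hD hPd) fun n hn => hCLS M b p D hD hPd hne' n hn
  obtain ⟨r, hr⟩ := hBND M b p
  obtain ⟨N, hN⟩ := hCS1 M b r
  obtain ⟨h, -, hh2, hh3, -⟩ := hCl N p
  have hP : ∀ β : Wd M, Over b β → β.len ≤ N →
      Over b (pick M fun t : Wd M => Over b t ∧ t.len ≤ p ∧ D (t ++ apw h β)) ∧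
      (pick M fun t : Wd M => Over b t ∧ t.len ≤ p ∧ D (t ++ apw h β)).len ≤ p ∧
      D ((pick M fun t : Wd M => Over b t ∧ t.len ≤ p ∧ D (t ++ apw h β)) ++ apw h β) := by
    intro β hβ hβN
    have hex : ∃ t : Wd M, Over b t ∧ t.len ≤ p ∧ D (t ++ apw h β) := by
      obtain ⟨t, ht1, ht2, ht3⟩ := hh2 (Wd.nil M) β (Over.nil b)
        (by rw [Wd.len_nil]; exact World.zero_le' p) hβ hβN
      exact ⟨t, ht1, ht2, by simpa using ht3⟩
    exact pick_spec (P := fun t : Wd M => Over b t ∧ t.len ≤ p ∧ D (t ++ apw h β)) hex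
  obtain ⟨σ, τ, hσ, hτ, hl, hc⟩ := hN
    (fun β => Cod.cd (pick M fun t : Wd M => Over b t ∧ t.len ≤ p ∧ D (t ++ apw h β)))
    inferInstance (fun z hz hz2 => hr _ (hP z hz hz2).1 (hP z hz hz2).2.1)
  have hσN : σ.len ≤ N := le_trans (le_add_of_nonneg_right (World.zero_le' _)) hl
  refine hh3 _ σ τ (hP σ hσ hσN).1 (hP σ hσ hσN).2.1 hσ hτ hl ⟨(hP σ hσ hσN).2.2, fun c hcb => ?_⟩
  have h5 := Cod.inj (hc c hcb)
  rw [← h5]
  refine (hP _ ?_ ?_).2.2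
  · rw [Over.append_iff, Over.append_iff, Over.sg_iff]
    exact ⟨⟨hσ, hcb⟩, Over.sub hcb hτ⟩
  · rw [Wd.len_append, Wd.len_append, Wd.len_sg, Wd.len_sub, add_assoc, add_comm 1]
    exact hl

end Pool.Agent.Helper27.CS
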